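import Pool.Agent.helper17.MK.Spec

/-!
# Row RL of `Pool.Agent.helper17.MK.Spec`
-/

set_option autoImplicit false

namespace Pool.Agent.MK

open Finset Real

theorem RL_step (N : ℕ) (Q : Finset ℕ) : (∀ p ∈ Q, p.Prime) →
    (∏ p ∈ Q, (1 - 1 / (p : ℝ))) * ∑ n ∈ Ioc 0 N, 1 / (n : ℝ) ≤
      ∑ n ∈ (Ioc 0 N).filter (fun n => ∀ p ∈ Q, ¬ p ∣ n), 1 / (n : ℝ) := by
  induction Q using Finset.induction_on with
  | empty => intro _; simp
  | insert p Q hp ih =>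
    intro hQ
    have hpp := hQ p (mem_insert_self p Q)
    have ih' := ih (fun q hq => hQ q (mem_insert_of_mem hq))
    rw [prod_insert hp]
    set S := (Ioc 0 N).filter (fun n => ∀ q ∈ Q, ¬ q ∣ n) with hS
    have hp1 : (1 : ℝ) < p := by exact_mod_cast hpp.one_lt
    have h0 : (0 : ℝ) ≤ 1 - 1 / (p : ℝ) := by
      rw [sub_nonneg, div_le_one (by linarith)]; exact hp1.le
    have hsplit : ∑ n ∈ S.filter (fun n => p ∣ n), 1 / (n : ℝ) +
        ∑ n ∈ S.filter (fun n => ¬ p ∣ n), 1 / (n : ℝ) = ∑ n ∈ S, 1 / (n : ℝ) :=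
      sum_filter_add_sum_filter_not S _ _
    have hdiv : ∑ n ∈ S.filter (fun n => p ∣ n), 1 / (n : ℝ) ≤ 1 / (p : ℝ) * ∑ n ∈ S, 1 / (n : ℝ) := by
      rw [mul_sum]
      calc ∑ n ∈ S.filter (fun n => p ∣ n), 1 / (n : ℝ)
          = ∑ n ∈ (S.filter (fun n => p ∣ n)), 1 / (p : ℝ) * (1 / ((n / p : ℕ) : ℝ)) := by
            refine sum_congr rfl fun n hn => ?_
            obtain ⟨m, rfl⟩ := (mem_filter.1 hn).2
            rw [Nat.mul_div_cancel_left _ hpp.pos]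
            push_cast
            rw [one_div_mul_one_div]
        _ = ∑ m ∈ (S.filter (fun n => p ∣ n)).image (fun n => n / p), 1 / (p : ℝ) * (1 / (m : ℝ)) := by
            rw [sum_image]
            intro a ha b hb hab
            obtain ⟨a', rfl⟩ := (mem_filter.1 (mem_coe.1 ha)).2
            obtain ⟨b', rfl⟩ := (mem_filter.1 (mem_coe.1 hb)).2
            simp only [Nat.mul_div_cancel_left _ hpp.pos] at hab
            rw [hab]
        _ ≤ ∑ m ∈ S, 1 / (p : ℝ) * (1 / (m : ℝ)) := by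
            apply sum_le_sum_of_subset_of_nonneg
            · intro m hm
              obtain ⟨n, hn, rfl⟩ := mem_image.1 hm
              obtain ⟨hn1, k, rfl⟩ := mem_filter.1 hn
              rw [hS, mem_filter, mem_Ioc] at hn1
              obtain ⟨⟨h1, h2⟩, h3⟩ := hn1
              rw [Nat.mul_div_cancel_left _ hpp.pos, hS, mem_filter, mem_Ioc]
              refine ⟨⟨Nat.pos_of_ne_zero ?_, ?_⟩, fun q hq hd => h3 q hq (hd.mul_left p)⟩
              · rintro rfl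
                simp at h1
              · exact le_trans (Nat.le_mul_of_pos_left k hpp.pos) h2
            · intro i _ _
              positivity
    have hS2 : (Ioc 0 N).filter (fun n => ∀ q ∈ insert p Q, ¬ q ∣ n) = S.filter (fun n => ¬ p ∣ n) := by
      ext n
      simp only [hS, mem_filter, mem_insert, forall_eq_or_imp]
      tauto
    rw [hS2]
    calc (1 - 1 / (p : ℝ)) * (∏ x ∈ Q, (1 - 1 / (x : ℝ))) * ∑ n ∈ Ioc 0 N, 1 / (n : ℝ)
        = (1 - 1 / (p : ℝ)) * ((∏ x ∈ Q, (1 - 1 / (x : ℝ))) * ∑ n ∈ Ioc 0 N, 1 / (n : ℝ)) := by ring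
      _ ≤ (1 - 1 / (p : ℝ)) * ∑ n ∈ S, 1 / (n : ℝ) := mul_le_mul_of_nonneg_left ih' h0
      _ ≤ _ := by linarith

theorem RL_decomp (n : ℕ) : ∃ a : ℕ × ℕ, a.2 ^ 2 * a.1 = n ∧ Squarefree a.1 := by
  obtain ⟨a, b, h1, h2⟩ := Nat.sq_mul_squarefree n
  exact ⟨(a, b), h1, h2⟩

/-- the squarefree part and the root of the square part -/
noncomputable def RL_td (n : ℕ) : ℕ × ℕ := (RL_decomp n).choose

theorem RL_td_spec (n : ℕ) : (RL_td n).2 ^ 2 * (RL_td n).1 = n ∧ Squarefree (RL_td n).1 :=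
  (RL_decomp n).choose_spec

theorem RL_prod_pf {t : ℕ} (ht : Squarefree t) : ∏ p ∈ t.primeFactors, 1 / (p : ℝ) = 1 / (t : ℝ) := by
  rw [prod_div_distrib, prod_const_one]
  congr 1
  rw [← Nat.cast_prod, Nat.prod_primeFactors_of_squarefree ht]

theorem RL_bound (w L : ℝ) (hw : 2 ≤ w) :
    ∑ n ∈ (Ioc 0 ⌊Real.exp L⌋₊).filter (fun n => ∀ p ∈ RLS.PP 1 w, ¬ p ∣ n), 1 / (n : ℝ) ≤
      RR w L * ∑ d ∈ insert 1 (Ioc ⌊w⌋₊ ⌊Real.exp L⌋₊), 1 / (d : ℝ) ^ 2 := by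
  set N := ⌊Real.exp L⌋₊ with hN
  set S := (Ioc 0 N).filter (fun n => ∀ p ∈ RLS.PP 1 w, ¬ p ∣ n) with hS
  set KK := (RLS.PP w (Real.exp L)).powerset.filter
    (fun K : Finset ℕ => ∑ p ∈ K, Real.log (p : ℝ) ≤ L) with hKK
  have hRR : RR w L = ∑ K ∈ KK, ∏ p ∈ K, 1 / (p : ℝ) := rfl
  rw [hRR, sum_mul_sum, ← sum_product']
  have hfac : ∀ n ∈ S, ∀ p : ℕ, p.Prime → p ∣ n → w < p := by
    intro n hn p hp hpn
    by_contra hlt
    push Not at hlt
    have h1 := (mem_filter.1 hn).2 p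
    apply h1 _ hpn
    unfold RLS.PP
    rw [mem_filter, mem_range]
    exact ⟨Nat.lt_succ_of_le (Nat.le_floor hlt), hp, by exact_mod_cast hp.one_lt⟩
  have key : ∀ n ∈ S, 1 / (n : ℝ) = (∏ p ∈ (RL_td n).1.primeFactors, 1 / (p : ℝ)) *
      (1 / ((RL_td n).2 : ℝ) ^ 2) := by
    intro n hn
    obtain ⟨h1, h2⟩ := RL_td_spec n
    rw [RL_prod_pf h2]
    have h3 : (n : ℝ) = ((RL_td n).2 : ℝ) ^ 2 * ((RL_td n).1 : ℝ) := by
      exact_mod_cast h1.symm
    rw [h3, one_div_mul_one_div, mul_comm]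
  rw [sum_congr rfl key]
  have hinj : Set.InjOn (fun n => ((RL_td n).1.primeFactors, (RL_td n).2)) (S : Set ℕ) := by
    intro a _ b _ hab
    obtain ⟨h1, h2⟩ := RL_td_spec a
    obtain ⟨h3, h4⟩ := RL_td_spec b
    simp only [Prod.mk.injEq] at hab
    have h5 : (RL_td a).1 = (RL_td b).1 := by
      rw [← Nat.prod_primeFactors_of_squarefree h2, ← Nat.prod_primeFactors_of_squarefree h4, hab.1]
    rw [← h1, ← h3, h5, hab.2]
  have himg : ∑ n ∈ S, (∏ p ∈ (RL_td n).1.primeFactors, 1 / (p : ℝ)) * (1 / ((RL_td n).2 : ℝ) ^ 2) =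
      ∑ x ∈ S.image (fun n => ((RL_td n).1.primeFactors, (RL_td n).2)),
        (∏ p ∈ x.1, 1 / (p : ℝ)) * (1 / (x.2 : ℝ) ^ 2) := by
    rw [sum_image hinj]
  rw [himg]
  apply sum_le_sum_of_subset_of_nonneg
  · intro x hx
    obtain ⟨n, hn, rfl⟩ := mem_image.1 hx
    obtain ⟨h1, h2⟩ := RL_td_spec n
    have hn0 := (mem_filter.1 hn).1
    rw [mem_Ioc] at hn0
    have ht0 : (RL_td n).1 ≠ 0 := h2.ne_zero
    have hd0 : (RL_td n).2 ≠ 0 := by
      intro h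
      rw [h] at h1
      simp at h1
      omega
    have htn : (RL_td n).1 ∣ n := Dvd.intro_left _ h1
    have hdn : (RL_td n).2 ∣ n :=
      ⟨(RL_td n).2 * (RL_td n).1, by rw [← mul_assoc, ← pow_two, h1]⟩
    have htN : (RL_td n).1 ≤ N := (Nat.le_of_dvd hn0.1 htn).trans hn0.2
    have hdN : (RL_td n).2 ≤ N := (Nat.le_of_dvd hn0.1 hdn).trans hn0.2
    rw [mem_product, hKK, mem_filter, mem_powerset]
    refine ⟨⟨?_, ?_⟩, ?_⟩
    · intro p hp
      have hp1 := Nat.prime_of_mem_primeFactors hp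
      have hp2 := Nat.dvd_of_mem_primeFactors hp
      unfold RLS.PP
      rw [mem_filter, mem_range]
      refine ⟨Nat.lt_succ_of_le ?_, hp1, hfac n hn p hp1 (hp2.trans htn)⟩
      exact (Nat.le_of_dvd (Nat.pos_of_ne_zero ht0) hp2).trans htN
    · dsimp only
      rw [← Real.log_prod (fun p hp => by
        have := (Nat.prime_of_mem_primeFactors hp).pos
        positivity), ← Nat.cast_prod, Nat.prod_primeFactors_of_squarefree h2]
      rw [Real.log_le_iff_le_exp (by positivity)]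
      exact (Nat.cast_le.2 htN).trans (Nat.floor_le (Real.exp_pos L).le)
    · rw [mem_insert, mem_Ioc]
      by_cases h : (RL_td n).2 = 1
      · exact Or.inl h
      · right
        refine ⟨?_, hdN⟩
        obtain ⟨p, hp, hpd⟩ := Nat.exists_prime_and_dvd h
        have h3 := hfac n hn p hp (hpd.trans hdn)
        have h4 : (p : ℝ) ≤ ((RL_td n).2 : ℝ) :=
          Nat.cast_le.2 (Nat.le_of_dvd (Nat.pos_of_ne_zero hd0) hpd)
        rw [Nat.floor_lt (by linarith)]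
        exact h3.trans_le h4
  · intro x _ _
    apply mul_nonneg
    · exact prod_nonneg fun p _ => by positivity
    · positivity

theorem RL_sq (w : ℝ) (N : ℕ) (hw : 2 ≤ w) :
    ∑ d ∈ insert 1 (Ioc ⌊w⌋₊ N), 1 / (d : ℝ) ^ 2 ≤ 1 + 2 / w := by
  have hfl : w / 2 ≤ (⌊w⌋₊ : ℝ) := by
    have := Nat.lt_floor_add_one w
    linarith
  have hf0 : ⌊w⌋₊ ≠ 0 := by
    intro h
    rw [h] at hfl
    norm_num at hfl
    linarith
  have h1 : (1 : ℕ) ∉ Ioc ⌊w⌋₊ N := by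
    rw [mem_Ioc]
    omega
  rw [sum_insert h1]
  have h2 : ∑ d ∈ Ioc ⌊w⌋₊ N, 1 / (d : ℝ) ^ 2 ≤ (⌊w⌋₊ : ℝ)⁻¹ := by
    rcases le_or_gt ⌊w⌋₊ N with h | h
    · have h3 := sum_Ioc_inv_sq_le_sub (α := ℝ) hf0 h
      simp only [one_div]
      refine h3.trans ?_
      have : (0 : ℝ) ≤ (N : ℝ)⁻¹ := by positivity
      linarith
    · rw [Ioc_eq_empty (by omega), sum_empty]
      positivity
  have h3 : (⌊w⌋₊ : ℝ)⁻¹ ≤ 2 / w := by
    have h4 : (0 : ℝ) < w / 2 := by linarith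
    calc (⌊w⌋₊ : ℝ)⁻¹ ≤ (w / 2)⁻¹ := by gcongr
      _ = 2 / w := by rw [inv_div]
  norm_num
  norm_num at h2
  linarith

theorem RL : RL_stmt := by
  intro w L hw hL
  have h1 := RL_step ⌊Real.exp L⌋₊ (RLS.PP 1 w) (fun p hp => by
    unfold RLS.PP at hp
    exact (mem_filter.1 hp).2.1)
  have h2 := RL_bound w L hw
  have h3 := RL_sq w ⌊Real.exp L⌋₊ hw
  have hRR : 0 ≤ RR w L := by
    unfold RR
    exact sum_nonneg fun K _ => prod_nonneg fun p _ => by positivity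
  have hV : 0 ≤ Vw w := by
    unfold Vw
    refine prod_nonneg fun p hp => ?_
    unfold RLS.PP at hp
    have hp2 : (1 : ℝ) < (p : ℝ) := (mem_filter.1 hp).2.2
    rw [sub_nonneg, div_le_one (by linarith)]
    exact hp2.le
  have hlog : L ≤ ∑ n ∈ Ioc 0 ⌊Real.exp L⌋₊, 1 / (n : ℝ) := by
    have h4 := log_add_one_le_harmonic ⌊Real.exp L⌋₊
    have h5 : L ≤ Real.log ((⌊Real.exp L⌋₊ + 1 : ℕ) : ℝ) := by
      rw [Real.le_log_iff_exp_le (by positivity)]
      push_cast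
      exact (Nat.lt_floor_add_one _).le
    refine (h5.trans h4).trans (le_of_eq ?_)
    rw [harmonic_eq_sum_Icc]
    push_cast
    refine sum_congr ?_ fun n _ => by rw [one_div]
    ext n
    rw [mem_Icc, mem_Ioc]
    omega
  calc Vw w * L ≤ Vw w * ∑ n ∈ Ioc 0 ⌊Real.exp L⌋₊, 1 / (n : ℝ) := mul_le_mul_of_nonneg_left hlog hV
    _ ≤ _ := h1
    _ ≤ _ := h2
    _ ≤ RR w L * (1 + 2 / w) := mul_le_mul_of_nonneg_left h3 hRR
    _ = (1 + 2 / w) * RR w L := mul_comm _ _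

end Pool.Agent.MK
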